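import Pool.Agent.Helper40.QG.GLA

/-!
AUT project (S00834), pure `GL_d` block, G4 continued: elements of order 151 in `GL_15(A)`.

* `sumA` : `∑_{i<151} z^i = 0`.
* `sq_not_dvdA` : `151² ∤ |GL_15(A)|`.
* `spanPi` : the subgroup generated by the elements of order 151 spans `M_15(A)` additively.
-/

set_option autoImplicit false

namespace QG40

open Matrix

variable {A : Type} [CommRing A]
  (inc : ZMod 2 →+* A) (eps : A →+* ZMod 2) (hsq : ∀ a b : A, eps a = 0 → eps b = 0 → a * b = 0)

section gen

variable {n : Type} [DecidableEq n] [Fintype n]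

include inc in
theorem two_eq_zero : (2 : A) = 0 := by
  have : inc 2 = 2 := map_ofNat inc 2
  rw [← this, show (2 : ZMod 2) = 0 from rfl, map_zero]

include inc in
theorem add_selfA (a : A) : a + a = 0 := by
  rw [← two_mul, two_eq_zero inc, zero_mul]

include inc in
theorem unip_sq (y : Matrix n n (RingHom.ker eps)) :
    unip eps hsq (Multiplicative.ofAdd y) ^ 2 = 1 := by
  rw [← map_pow, ← ofAdd_nsmul, two_nsmul]
  have : y + y = 0 := by
    ext i j
    simp only [Matrix.add_apply, Matrix.zero_apply, Submodule.coe_add, Submodule.coe_zero]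
    exact add_selfA inc _
  rw [this, ofAdd_zero, map_one]

include inc hsq in
/-- the kernel of reduction is of exponent 2 -/
theorem sq_of_red {g : GL n A} (h : red eps g = 1) : g ^ 2 = 1 := by
  obtain ⟨y, hy⟩ := exists_decomp inc eps hsq g
  rw [h, map_one, one_mul] at hy
  rw [hy]
  exact unip_sq inc eps hsq y

theorem cst_inj : Function.Injective (cst (n := n) inc) ∨ True := Or.inr trivial

include eps in
theorem cst_injective : Function.Injective (cst (n := n) inc) :=
  Function.LeftInverse.injective (g := red eps) (red_cst inc eps)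

include eps in
theorem orderOf_cst (z : GL n (ZMod 2)) : orderOf (cst inc z) = orderOf z :=
  orderOf_injective _ (cst_injective inc eps) z

include inc hsq in
theorem orderOf_red {g : GL n A} (h : orderOf g = 151) : orderOf (red eps g) = 151 := by
  apply orderOf_eq_prime
  · rw [← map_pow, ← h, pow_orderOf_eq_one, map_one]
  · intro h1
    have h2 := sq_of_red inc eps hsq h1
    have h3 := orderOf_dvd_of_pow_eq_one h2
    rw [h] at h3
    norm_num at h3

end gen

include inc hsq in
theorem sumA (z : GL (Fin 15) A) (hz : orderOf z = 151) :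
    ∑ i ∈ Finset.range 151, (z : Matrix (Fin 15) (Fin 15) A) ^ i = 0 := by
  set e := ∑ i ∈ Finset.range 151, (z : Matrix (Fin 15) (Fin 15) A) ^ i with he
  have hr := orderOf_red inc eps hsq hz
  have hz1 : z ^ 151 = 1 := by rw [← hz]; exact pow_orderOf_eq_one z
  -- `z e = e`
  have hze : (z : Matrix (Fin 15) (Fin 15) A) * e = e := by
    have h := mul_geom_sum (z : Matrix (Fin 15) (Fin 15) A) 151
    rw [← Units.val_pow_eq_pow_val, hz1, Units.val_one, sub_self, sub_mul, one_mul,
      sub_eq_zero] at h
    exact h
  have hze' : ∀ i : ℕ, (z : Matrix (Fin 15) (Fin 15) A) ^ i * e = e := by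
    intro i
    induction i with
    | zero => simp
    | succ i ih => rw [pow_succ, mul_assoc, hze, ih]
  have hee : e * e = e := by
    conv_lhs => rw [he]
    rw [Finset.sum_mul, Finset.sum_congr rfl fun i _ => hze' i, Finset.sum_const,
      Finset.card_range]
    have h2 : (2 : ℕ) • e = 0 := by
      rw [two_nsmul]
      ext i j
      exact add_selfA inc _
    have : (151 : ℕ) • e = e + 75 • (2 • e) := by
      rw [← mul_nsmul, ← succ_nsmul']
    rw [this, h2, smul_zero, add_zero]
  have hred : ∀ i j, eps (e i j) = 0 := by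
    intro i j
    have h1 := sum_pow_eq_zero (red eps z) (by rw [← hr]; exact pow_orderOf_eq_one _)
      (by intro h; rw [h] at hr; simp at hr)
    have h2 : eps.mapMatrix e = 0 := by
      rw [he, map_sum, ← h1]
      apply Finset.sum_congr rfl
      intro i _
      rw [map_pow]
      rfl
    have := congrFun (congrFun h2 i) j
    simpa using this
  rw [← hee]
  exact sq_mat eps hsq e e hred hred

include inc hsq in
theorem sq_not_dvdA [Finite A] : ¬ 151 ^ 2 ∣ Nat.card (GL (Fin 15) A) := by
  intro h
  have h1 : Nat.card (GL (Fin 15) A) = Nat.card (red (n := Fin 15) eps).ker *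
      Nat.card (GL (Fin 15) (ZMod 2)) := by
    rw [Subgroup.card_eq_card_quotient_mul_card_subgroup (red (n := Fin 15) eps).ker, mul_comm]
    congr 1
    exact Nat.card_congr (QuotientGroup.quotientKerEquivOfSurjective (red (n := Fin 15) eps)
      (fun g => ⟨cst inc g, red_cst inc eps g⟩)).toEquiv
  rw [h1] at h
  have hp : IsPGroup 2 (red (n := Fin 15) eps).ker := by
    rintro ⟨g, hg⟩
    refine ⟨1, ?_⟩
    ext1
    simpa using sq_of_red inc eps hsq hg
  obtain ⟨m, hm⟩ := IsPGroup.iff_card.1 hp
  rw [hm] at h
  have hc : Nat.Coprime (151 ^ 2) (2 ^ m) := Nat.Coprime.pow _ _ (by norm_num)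
  exact sq_not_dvd (hc.dvd_of_dvd_mul_left h)

/-- products of elements of the additive span of a multiplicatively closed set -/
theorem closure_mul {R : Type} [Ring R] {S : Set R} (hS : ∀ a ∈ S, ∀ b ∈ S, a * b ∈ S) {x y : R}
    (hx : x ∈ AddSubgroup.closure S) (hy : y ∈ AddSubgroup.closure S) :
    x * y ∈ AddSubgroup.closure S := by
  induction hx using AddSubgroup.closure_induction with
  | mem a ha =>
    induction hy using AddSubgroup.closure_induction with
    | mem b hb => exact AddSubgroup.subset_closure (hS a ha b hb)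
    | zero => rw [mul_zero]; exact AddSubgroup.zero_mem _
    | add b c _ _ hb hc => rw [mul_add]; exact AddSubgroup.add_mem _ hb hc
    | neg b _ hb => rw [mul_neg]; exact AddSubgroup.neg_mem _ hb
  | zero => rw [zero_mul]; exact AddSubgroup.zero_mem _
  | add b c _ _ hb hc => rw [add_mul]; exact AddSubgroup.add_mem _ hb hc
  | neg b _ hb => rw [neg_mul]; exact AddSubgroup.neg_mem _ hb

include inc eps hsq in
theorem spanPi : AddSubgroup.closure {M : Matrix (Fin 15) (Fin 15) A |
    ∃ g ∈ Subgroup.closure {z : GL (Fin 15) A | orderOf z = 151}, M = g} = ⊤ := by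
  set S := {M : Matrix (Fin 15) (Fin 15) A |
    ∃ g ∈ Subgroup.closure {z : GL (Fin 15) A | orderOf z = 151}, M = g} with hS
  have hSmul : ∀ a ∈ S, ∀ b ∈ S, a * b ∈ S := by
    rintro _ ⟨g, hg, rfl⟩ _ ⟨h, hh, rfl⟩
    exact ⟨g * h, Subgroup.mul_mem _ hg hh, by simp⟩
  set Z := AddSubgroup.closure S with hZ
  have hmul : ∀ x ∈ Z, ∀ y ∈ Z, x * y ∈ Z := fun x hx y hy => closure_mul hSmul hx hy
  -- constants
  have hk : ∀ M : Matrix (Fin 15) (Fin 15) (ZMod 2), M.map inc ∈ Z := by
    intro M
    have hM : M ∈ AddSubgroup.closure {A : Matrix (Fin 15) (Fin 15) (ZMod 2) |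
        ∃ z : GL (Fin 15) (ZMod 2), orderOf z = 151 ∧ A = z} := by rw [span151]; trivial
    induction hM using AddSubgroup.closure_induction with
    | mem M hM =>
      obtain ⟨z, hz, rfl⟩ := hM
      refine AddSubgroup.subset_closure ⟨cst inc z, Subgroup.subset_closure ?_, rfl⟩
      change orderOf _ = 151
      rw [orderOf_cst inc eps, hz]
    | zero => rw [Matrix.map_zero _ (map_zero inc)]; exact Z.zero_mem
    | add M N _ _ hM hN => rw [Matrix.map_add _ (map_add inc)]; exact Z.add_mem hM hN
    | neg M _ hM =>
      have : (-M).map inc = - M.map inc := by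
        ext i j
        simp only [Matrix.map_apply, Matrix.neg_apply, map_neg]
      rw [this]; exact Z.neg_mem hM
  -- commutators with `J`-matrices
  have hJ : ∀ (y : Matrix (Fin 15) (Fin 15) (RingHom.ker eps))
      (M : Matrix (Fin 15) (Fin 15) (ZMod 2)),
      y.map (fun a => (a : A)) * M.map inc - M.map inc * y.map (fun a => (a : A)) ∈ Z := by
    intro y M
    have hM : M ∈ AddSubgroup.closure {A : Matrix (Fin 15) (Fin 15) (ZMod 2) |
        ∃ z : GL (Fin 15) (ZMod 2), orderOf z = 151 ∧ A = z} := by rw [span151]; trivial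
    induction hM using AddSubgroup.closure_induction with
    | mem M hM =>
      obtain ⟨z, hz, rfl⟩ := hM
      have hz' : orderOf (cst inc z) = 151 := by rw [orderOf_cst inc eps, hz]
      let u := unip eps hsq (Multiplicative.ofAdd y)
      have h1 : ((u * cst inc z * u⁻¹ : GL (Fin 15) A) : Matrix (Fin 15) (Fin 15) A) ∈ Z := by
        refine AddSubgroup.subset_closure ⟨_, Subgroup.subset_closure ?_, rfl⟩
        change orderOf _ = 151
        rw [← hz']
        exact (MulAut.conj u).orderOf_eq (cst inc z)
      have h2 : ((cst inc z : GL (Fin 15) A) : Matrix (Fin 15) (Fin 15) A) ∈ Z := hk _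
      have h3 := Z.sub_mem h1 h2
      convert h3 using 1
      set Y : Matrix (Fin 15) (Fin 15) A := y.map (fun a => (a : A)) with hY
      have hYe : ∀ i j, eps (Y i j) = 0 := fun i j => (y i j).2
      have hu : (u : Matrix (Fin 15) (Fin 15) A) = 1 + Y := rfl
      have hu' : ((u⁻¹ : GL (Fin 15) A) : Matrix (Fin 15) (Fin 15) A) = 1 - Y := rfl
      have hYZ : Y * (cst inc z : GL (Fin 15) A) * Y = 0 := by
        apply sq_mat eps hsq _ _ _ hYe
        intro i j
        rw [Matrix.mul_apply, map_sum]
        exact Finset.sum_eq_zero fun k _ => by rw [map_mul, hYe, zero_mul]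
      have hc : (Matrix.map (z : Matrix (Fin 15) (Fin 15) (ZMod 2)) inc) =
        ((cst inc z : GL (Fin 15) A) : Matrix (Fin 15) (Fin 15) A) := rfl
      rw [hc, Units.val_mul, Units.val_mul, hu, hu', add_mul, mul_sub, mul_one, add_mul, one_mul,
        hYZ]
      abel
    | zero => rw [Matrix.map_zero _ (map_zero inc)]; simp [Z.zero_mem]
    | add M N _ _ hM hN =>
      rw [Matrix.map_add _ (map_add inc), mul_add, add_mul]
      have := Z.add_mem hM hN
      convert this using 1
      abel
    | neg M _ hM =>
      have : (-M).map inc = - M.map inc := by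
        ext i j
        simp only [Matrix.map_apply, Matrix.neg_apply, map_neg]
      rw [this]
      have := Z.neg_mem hM
      convert this using 1
      rw [mul_neg, neg_mul]
      abel
  -- off-diagonal entries
  have hoff : ∀ (i j : Fin 15) (a : RingHom.ker eps), i ≠ j → single i j (a : A) ∈ Z := by
    intro i j a hij
    have := hJ (single i i a) (single i j 1)
    have c1 : (single i i a).map (fun a => (a : A)) = single i i (a : A) := by
      ext p q; simp only [map_apply, single_apply]; split_ifs <;> rfl
    have c2 : (single i j (1 : ZMod 2)).map inc = single i j (1 : A) := by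
      ext p q; simp only [map_apply, single_apply]; split_ifs <;> simp
    rw [c1, c2, single_mul_single_same, single_mul_single_of_ne _ _ _ _ (Ne.symm hij), mul_one,
      sub_zero] at this
    exact this
  have hall : ∀ (i j : Fin 15) (a : RingHom.ker eps), single i j (a : A) ∈ Z := by
    intro i j a
    by_cases hij : i = j
    · subst hij
      obtain ⟨k, hik, -⟩ := exists_third (n := Fin 15) (by simp) i i
      have h1 := hoff i k a hik
      have h2 : single k i (1 : A) ∈ Z := by
        have := hk (single k i 1)
        have c2 : (single k i (1 : ZMod 2)).map inc = single k i (1 : A) := by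
          ext p q; simp only [map_apply, single_apply]; split_ifs <;> simp
        rwa [c2] at this
      have := hmul _ h1 _ h2
      rwa [single_mul_single_same, mul_one] at this
    · exact hoff i j a hij
  rw [eq_top_iff]
  intro M _
  have hdec : M = (M.map eps).map inc + (M - (M.map eps).map inc) := by abel
  rw [hdec]
  apply Z.add_mem (hk _)
  rw [Matrix.matrix_eq_sum_single (M - (M.map eps).map inc)]
  apply Z.sum_mem
  intro i _
  apply Z.sum_mem
  intro j _
  exact hall i j ⟨(M - (M.map eps).map inc) i j, by
    rw [RingHom.mem_ker]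
    simp [eps_inc]⟩

end QG40
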