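import Pool.Agent.Helper40.QG.More

/-!
AUT project (S00834), pure `GL_d` block: the subgroup generated by the elements of order 151 is perfect.

* `sylow_one_class` : `p² ∤ |G|`, `x, y` of order `p` : `y = g x^k g⁻¹`.
* `closure_perfect` : abstract perfectness criterion.
* `piA_perfect` : `Pi(GL_15(A))` is perfect.
-/

set_option autoImplicit false

namespace QG40

open Matrix
open scoped Pointwise commutatorElement

theorem sylow_one_class {G : Type} [Group G] [Finite G] {p : ℕ} [hp : Fact p.Prime]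
    (hp2 : ¬ p ^ 2 ∣ Nat.card G) {x y : G} (hx : orderOf x = p) (hy : orderOf y = p) :
    ∃ (g : G) (k : ℤ), y = g * x ^ k * g⁻¹ := by
  have key : ∀ {x : G}, orderOf x = p → ¬ p ∣ (Subgroup.zpowers x).index := by
    intro x hx hdvd
    apply hp2
    rw [← Subgroup.card_mul_index (Subgroup.zpowers x), Nat.card_zpowers, hx, pow_two]
    exact Nat.mul_dvd_mul_left p hdvd
  have hP : ∀ {x : G}, orderOf x = p → IsPGroup p (Subgroup.zpowers x) := by
    intro x hx
    exact IsPGroup.of_card (n := 1) (by rw [Nat.card_zpowers, hx, pow_one])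
  let P : Sylow p G := (hP hx).toSylow (key hx)
  let Q : Sylow p G := (hP hy).toSylow (key hy)
  obtain ⟨g, hg⟩ := MulAction.exists_smul_eq G P Q
  have hyQ : y ∈ Q := by
    rw [IsPGroup.mem_toSylow]
    exact Subgroup.mem_zpowers y
  rw [← hg] at hyQ
  have : y ∈ (MulAut.conj g) • (P : Subgroup G) := hyQ
  rw [Subgroup.mem_smul_pointwise_iff_exists] at this
  obtain ⟨u, hu, hu'⟩ := this
  have huP : u ∈ Subgroup.zpowers x := by
    have : u ∈ P := hu
    rwa [IsPGroup.mem_toSylow] at this
  obtain ⟨k, rfl⟩ := huP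
  exact ⟨g, k, by rw [← hu']; rfl⟩

/-- a normal subgroup containing an element of order `p` contains all of them (if `p² ∤ |G|`) -/
theorem closure_le_of_normal {G : Type} [Group G] [Finite G] {p : ℕ} [hp : Fact p.Prime]
    (hp2 : ¬ p ^ 2 ∣ Nat.card G) {N : Subgroup G} [hN : N.Normal] {x : G} (hx : orderOf x = p)
    (hxN : x ∈ N) : Subgroup.closure {y : G | orderOf y = p} ≤ N := by
  rw [Subgroup.closure_le]
  intro y hy
  obtain ⟨g, k, rfl⟩ := sylow_one_class hp2 hx hy
  exact hN.conj_mem _ (N.zpow_mem hxN k) g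

/-- abstract perfectness criterion -/
theorem closure_perfect {G : Type} [Group G] [Finite G] {p : ℕ} [hp : Fact p.Prime]
    (hp2 : ¬ p ^ 2 ∣ Nat.card G) {z φ : G} (hz : orderOf z = p) (hφ : φ ∈ commutator G)
    (hzφ : φ * z * φ⁻¹ = z ^ 2) :
    Group.IsPerfect (Subgroup.closure {y : G | orderOf y = p}) := by
  set P := Subgroup.closure {y : G | orderOf y = p} with hP
  have hPn : P.Normal := by
    constructor
    intro n hn g
    have : P.map (MulAut.conj g).toMonoidHom ≤ P := by
      rw [hP, MonoidHom.map_closure, Subgroup.closure_le]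
      rintro _ ⟨y, hy, rfl⟩
      apply Subgroup.subset_closure
      change orderOf _ = p
      rw [← hy]
      exact (MulAut.conj g).orderOf_eq y
    exact this ⟨n, hn, rfl⟩
  rw [Subgroup.isPerfect_iff]
  set K := ⁅P, P⁆ with hK
  have hKn : K.Normal := Subgroup.commutator_normal P P
  have hKP : K ≤ P := Subgroup.commutator_le_left P P
  apply le_antisymm hKP
  have hzP : z ∈ P := Subgroup.subset_closure hz
  let q : G →* G ⧸ K := QuotientGroup.mk' K
  -- every element of order `p` is, mod `K`, a power of `z`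
  have hpow : ∀ w : G, orderOf w = p → ∃ k : ℤ, q w = q z ^ k := by
    intro w hw
    have hwP : w ∈ P := Subgroup.subset_closure hw
    have hp2' : ¬ p ^ 2 ∣ Nat.card P := fun h => hp2 (h.trans (Subgroup.card_subgroup_dvd_card P))
    obtain ⟨g, k, hg⟩ := sylow_one_class hp2' (x := (⟨z, hzP⟩ : P)) (y := (⟨w, hwP⟩ : P))
      (by rw [Subgroup.orderOf_mk, hz]) (by rw [Subgroup.orderOf_mk, hw])
    have hg' : w = (g : G) * z ^ k * (g : G)⁻¹ := by
      have := congrArg (fun u : P => (u : G)) hg
      simpa using this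
    refine ⟨k, ?_⟩
    have hcomm : (g : G) * z ^ k * (g : G)⁻¹ * (z ^ k)⁻¹ ∈ K := by
      have := Subgroup.commutator_mem_commutator g.2 (P.zpow_mem hzP k)
      rwa [commutatorElement_def] at this
    have h1 : q ((g : G) * z ^ k * (g : G)⁻¹ * (z ^ k)⁻¹) = 1 := (QuotientGroup.eq_one_iff _).2 hcomm
    rw [map_mul, map_inv, mul_inv_eq_one] at h1
    rw [hg', h1, map_zpow]
  -- conjugation by `g` is a power map on `q z`
  have hconj : ∀ g : G, ∃ k : ℤ, MulAut.conj (q g) (q z) = q z ^ k := by
    intro g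
    obtain ⟨k, hk⟩ := hpow (g * z * g⁻¹) (by
      rw [← hz]; exact (MulAut.conj g).orderOf_eq z)
    refine ⟨k, ?_⟩
    rw [← hk]
    simp
  choose i hi using hconj
  have hi' : ∀ (g : G) (m : ℤ), MulAut.conj (q g) (q z ^ m) = q z ^ (i g * m) := by
    intro g m
    rw [map_zpow, hi, ← _root_.zpow_mul]
  have hinv : ∀ g : G, q z ^ (i g * i g⁻¹) = q z := by
    intro g
    rw [← hi', ← hi g⁻¹, map_inv]
    simp only [MulAut.conj_apply]
    group
  have hcent : commutator G ≤ (Subgroup.centralizer {q z}).comap q := by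
    rw [commutator_def, Subgroup.commutator_le]
    intro g _ h _
    rw [Subgroup.mem_comap, Subgroup.mem_centralizer_singleton_iff]
    have h1 : MulAut.conj (q ⁅g, h⁆) (q z) = q z := by
      have h2 : MulAut.conj (q ⁅g, h⁆) (q z) =
          MulAut.conj (q g) (MulAut.conj (q h) (MulAut.conj (q g⁻¹) (MulAut.conj (q h⁻¹) (q z)))) := by
        rw [commutatorElement_def]
        simp [mul_assoc]
      rw [h2, hi, hi', hi', hi']
      have h3 : i g * (i h * (i g⁻¹ * i h⁻¹)) = (i g * i g⁻¹) * (i h * i h⁻¹) := by ring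
      rw [h3, _root_.zpow_mul, hinv, hinv]
    rw [MulAut.conj_apply, mul_inv_eq_iff_eq_mul] at h1
    exact h1
  have hφ' := hcent hφ
  rw [Subgroup.mem_comap, Subgroup.mem_centralizer_singleton_iff] at hφ'
  have hzK : z ∈ K := by
    rw [← QuotientGroup.eq_one_iff (N := K)]
    change q z = 1
    have h1 : q (φ * z * φ⁻¹) = q z := by
      rw [map_mul, map_mul, hφ', map_inv]; simp
    rw [hzφ, map_pow, pow_two] at h1
    exact mul_eq_right.1 h1
  exact closure_le_of_normal hp2 hz hzK

/-- an element of order 151 of `GL_15(F_2)` conjugate to its square -/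
theorem exists_frob : ∃ z φ : GL (Fin 15) (ZMod 2), orderOf z = 151 ∧ φ * z * φ⁻¹ = z ^ 2 := by
  let F := GaloisField 2 15
  have hfin : Module.finrank (ZMod 2) F = 15 := GaloisField.finrank 2 (by norm_num)
  let b : Module.Basis (Fin 15) (ZMod 2) F := Module.finBasisOfFinrankEq (ZMod 2) F hfin
  have : Fintype F := Fintype.ofFinite F
  have hcard : Nat.card Fˣ = 2 ^ 15 - 1 := by
    rw [Nat.card_units, GaloisField.card 2 15 (by norm_num)]
  obtain ⟨u, hu⟩ : ∃ u : Fˣ, orderOf u = 151 := by
    have : Fintype Fˣ := Fintype.ofFinite _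
    apply exists_prime_orderOf_dvd_card
    rw [← Nat.card_eq_fintype_card, hcard]
    norm_num
  let e : (F ≃ₗ[ZMod 2] F) ≃* GL (Fin 15) (ZMod 2) :=
    (LinearMap.GeneralLinearGroup.generalLinearEquiv (ZMod 2) F).symm.trans
      (Units.mapEquiv (LinearMap.toMatrixAlgEquiv b).toMulEquiv)
  let fr : F ≃ₗ[ZMod 2] F := (FiniteField.frobeniusAlgEquivOfAlgebraic (ZMod 2) F).toLinearEquiv
  have hfr : ∀ x, fr x = x ^ 2 := by
    intro x
    change (FiniteField.frobeniusAlgEquivOfAlgebraic (ZMod 2) F) x = x ^ 2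
    rw [FiniteField.coe_frobeniusAlgEquivOfAlgebraic, ZMod.card]
  let mu : F ≃ₗ[ZMod 2] F := u.mulLeftLinearEquiv (ZMod 2) F
  have hmu : ∀ x, mu x = u * x := fun x => rfl
  refine ⟨e mu, e fr, ?_, ?_⟩
  · rw [e.orderOf_eq]
    have hinj : Function.Injective (Units.mulLeftLinearEquiv (ZMod 2) F : Fˣ →* F ≃ₗ[ZMod 2] F) := by
      intro x y hxy
      have := congrArg (fun f : F ≃ₗ[ZMod 2] F => f 1) hxy
      ext
      simpa using this
    rw [← hu]
    exact orderOf_injective _ hinj u
  · rw [← map_inv, ← map_mul, ← map_mul, ← map_pow]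
    congr 1
    rw [mul_inv_eq_iff_eq_mul]
    ext x
    change fr (mu x) = mu (mu (fr x))
    rw [hfr, hmu, hmu, hmu, hfr]
    ring

variable {A : Type} [CommRing A]
  (inc : ZMod 2 →+* A) (eps : A →+* ZMod 2) (hsq : ∀ a b : A, eps a = 0 → eps b = 0 → a * b = 0)

include inc eps hsq in
/-- `Pi(GL_15(A))` is perfect -/
theorem piA_perfect [Finite A] :
    Group.IsPerfect (Subgroup.closure {z : GL (Fin 15) A | orderOf z = 151}) := by
  obtain ⟨z, φ, hz, hφ⟩ := exists_frob
  have hperf := GL_perfect (n := Fin 15) (by simp)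
  apply closure_perfect (sq_not_dvdA inc eps hsq) (z := cst inc z) (φ := cst inc φ)
    (by rw [orderOf_cst inc eps, hz])
  · have h1 : φ ∈ commutator (GL (Fin 15) (ZMod 2)) := by
      rw [(Group.isPerfect_def.1 hperf)]; trivial
    have h2 : (commutator (GL (Fin 15) (ZMod 2))).map (cst inc) ≤ commutator (GL (Fin 15) A) := by
      rw [commutator_def, Subgroup.map_commutator, commutator_def]
      exact Subgroup.commutator_mono le_top le_top
    exact h2 ⟨φ, h1, rfl⟩
  · rw [← map_inv, ← map_mul, ← map_mul, hφ, map_pow]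

end QG40
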