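import Pool.Agent.Helper40.QG.Inv

/-!
AUT project (S00834), pure `GL_d` block: elements of order 151 in `GL_15(F_2)`, the span lemma.
-/

set_option autoImplicit false

namespace QG40

open Matrix

instance fact151 : Fact (Nat.Prime 151) := ⟨by norm_num⟩

/-- general form: a linear automorphism `f` of a finite `F_2`-space `D` with `f ^ 151 = 1` and
`|D| = 2^m`, `m ≤ 15`, is the identity or (`m = 15`) has no non zero fixed vector. -/
theorem fpf_aux {D : Type} [AddCommGroup D] [Module (ZMod 2) D] [Finite D]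
    (f : D ≃ₗ[ZMod 2] D) (hf : f ^ 151 = 1) (hf1 : f ≠ 1)
    (hm : Module.finrank (ZMod 2) D ≤ 15) :
    Module.finrank (ZMod 2) D = 15 ∧ ∀ v, f v = v → v = 0 := by
  classical
  let W : Submodule (ZMod 2) D := LinearMap.ker ((f : D →ₗ[ZMod 2] D) - LinearMap.id)
  have hW : ∀ w, w ∈ W ↔ f w = w := by
    intro w
    simp [W, LinearMap.mem_ker, sub_eq_zero]
  have hcard : Nat.card (Subgroup.zpowers f) = 151 := by
    rw [Nat.card_zpowers]
    exact orderOf_eq_prime hf hf1
  have hp : IsPGroup 151 (Subgroup.zpowers f) := IsPGroup.of_card (n := 1) (by rw [hcard, pow_one])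
  have hmod := hp.card_modEq_card_fixedPoints D
  have hfix : Nat.card (MulAction.fixedPoints (Subgroup.zpowers f) D) = Nat.card W := by
    apply Nat.card_congr
    apply Equiv.subtypeEquivRight
    intro w
    constructor
    · intro hw
      exact (hW w).2 (hw ⟨f, Subgroup.mem_zpowers f⟩)
    · intro hw
      have hw' := (hW w).1 hw
      have hle : Subgroup.zpowers f ≤ MulAction.stabilizer (D ≃ₗ[ZMod 2] D) w := by
        rw [Subgroup.zpowers_le]
        exact hw'
      rintro ⟨g, hg⟩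
      exact hle hg
  have hDc : Nat.card D = 2 ^ Module.finrank (ZMod 2) D := by
    rw [Module.natCard_eq_pow_finrank (K := ZMod 2), Nat.card_zmod]
  have hWc : Nat.card W = 2 ^ Module.finrank (ZMod 2) W := by
    rw [Module.natCard_eq_pow_finrank (K := ZMod 2), Nat.card_zmod]
  rw [hfix, hDc, hWc] at hmod
  have hle : Module.finrank (ZMod 2) W ≤ Module.finrank (ZMod 2) D := Submodule.finrank_le W
  have hneq : Module.finrank (ZMod 2) W ≠ Module.finrank (ZMod 2) D := by
    intro h
    have : W = ⊤ := Submodule.eq_top_of_finrank_eq h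
    apply hf1
    ext w
    have hw : w ∈ W := by rw [this]; trivial
    exact (hW w).1 hw
  have key : ∀ m ≤ 15, ∀ f ≤ m, f ≠ m → 2 ^ m ≡ 2 ^ f [MOD 151] → m = 15 ∧ f = 0 := by
    unfold Nat.ModEq
    decide
  obtain ⟨h1, h2⟩ := key _ hm _ hle hneq hmod
  refine ⟨h1, fun v hv => ?_⟩
  have hv' : v ∈ W := (hW v).2 hv
  have : W = ⊥ := Submodule.finrank_eq_zero.1 h2
  rw [this] at hv'
  exact (Submodule.mem_bot _).1 hv'

/-- `GL n` acts on `n → ZMod 2` linearly -/
noncomputable def toLinE {n : Type} [DecidableEq n] [Fintype n] :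
    GL n (ZMod 2) →* ((n → ZMod 2) ≃ₗ[ZMod 2] (n → ZMod 2)) :=
  (LinearMap.GeneralLinearGroup.generalLinearEquiv (ZMod 2) (n → ZMod 2)).toMonoidHom.comp
    (Matrix.GeneralLinearGroup.toLin (n := n) (R := ZMod 2)).toMonoidHom

theorem toLinE_apply {n : Type} [DecidableEq n] [Fintype n] (g : GL n (ZMod 2)) (v : n → ZMod 2) :
    toLinE g v = (g : Matrix n n (ZMod 2)).mulVec v := rfl

theorem toLinE_inj {n : Type} [DecidableEq n] [Fintype n] {g : GL n (ZMod 2)}
    (h : toLinE g = 1) : g = 1 := by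
  ext1
  apply Matrix.ext_of_mulVec_single
  intro i
  rw [← toLinE_apply, h, Units.val_one, Matrix.one_mulVec]
  rfl

/-- every element of order 151 of `GL_15(F_2)` acts without non zero fixed vector -/
theorem fpf (z : GL (Fin 15) (ZMod 2)) (hz : z ^ 151 = 1) (hz1 : z ≠ 1) (v : Fin 15 → ZMod 2)
    (hv : (z : Matrix (Fin 15) (Fin 15) (ZMod 2)).mulVec v = v) : v = 0 := by
  apply (fpf_aux (toLinE z) (by rw [← map_pow, hz, map_one]) (fun h => hz1 (toLinE_inj h))
    (by simp)).2 v
  rw [toLinE_apply, hv]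

/-- `GL_m(F_2)`, `m ≤ 14`, has no element of order 151 -/
theorem no151 {m : ℕ} (hm : m ≤ 14) (z : GL (Fin m) (ZMod 2)) (hz : z ^ 151 = 1) : z = 1 := by
  by_contra hz1
  have := (fpf_aux (toLinE z) (by rw [← map_pow, hz, map_one]) (fun h => hz1 (toLinE_inj h))
    (by simp; omega)).1
  simp at this
  omega

/-- the same for linear automorphisms of a space of dimension `≤ 14` -/
theorem no151' {D : Type} [AddCommGroup D] [Module (ZMod 2) D] [Finite D]
    (hm : Module.finrank (ZMod 2) D ≤ 14) (f : D ≃ₗ[ZMod 2] D) (hf : f ^ 151 = 1) : f = 1 := by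
  by_contra hf1
  have := (fpf_aux f hf hf1 (by omega)).1
  omega

theorem sum_pow_eq_zero (z : GL (Fin 15) (ZMod 2)) (hz : z ^ 151 = 1) (hz1 : z ≠ 1) :
    ∑ i ∈ Finset.range 151, (z : Matrix (Fin 15) (Fin 15) (ZMod 2)) ^ i = 0 := by
  apply Matrix.ext_of_mulVec_single
  intro j
  rw [Matrix.zero_mulVec]
  apply fpf z hz hz1
  have h := mul_geom_sum (z : Matrix (Fin 15) (Fin 15) (ZMod 2)) 151
  rw [← Units.val_pow_eq_pow_val, hz, Units.val_one, sub_self, sub_mul, one_mul, sub_eq_zero] at h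
  rw [Matrix.mulVec_mulVec, h]

/-- `151² ∤ |GL_15(F_2)|` -/
theorem sq_not_dvd : ¬ 151 ^ 2 ∣ Nat.card (GL (Fin 15) (ZMod 2)) := by
  have h : (∏ i ∈ Finset.range 15, (2 ^ 15 - 2 ^ i)) % 22801 ≠ 0 := by decide +kernel
  rw [Matrix.card_GL_field, ZMod.card, Fin.prod_univ_eq_prod_range (fun i => 2 ^ 15 - 2 ^ i) 15,
    Nat.dvd_iff_mod_eq_zero]
  exact h

theorem dvd_GL15 : 151 ∣ Nat.card (GL (Fin 15) (ZMod 2)) := by
  rw [Matrix.card_GL_field, ZMod.card, Fin.prod_univ_eq_prod_range (fun i => 2 ^ 15 - 2 ^ i) 15]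
  decide +kernel

theorem exists_z : ∃ z : GL (Fin 15) (ZMod 2), orderOf z = 151 := by
  have : Fintype (GL (Fin 15) (ZMod 2)) := Fintype.ofFinite _
  apply exists_prime_orderOf_dvd_card
  rw [← Nat.card_eq_fintype_card]
  exact dvd_GL15

/-- SPAN LEMMA: the elements of order 151 of `GL_15(F_2)` span `M_15(F_2)` additively. -/
theorem span151 : AddSubgroup.closure {A : Matrix (Fin 15) (Fin 15) (ZMod 2) |
    ∃ z : GL (Fin 15) (ZMod 2), orderOf z = 151 ∧ A = z} = ⊤ := by
  obtain ⟨z, hz⟩ := exists_z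
  have hz1 : z ≠ 1 := by
    rintro rfl
    simp at hz
  have hz151 : z ^ 151 = 1 := by rw [← hz]; exact pow_orderOf_eq_one z
  apply closure_eq_top_of_pow (p := 151) (by simp) (by simp; decide) (fun w => orderOf w = 151)
    _ hz1 _ (by norm_num) (sum_pow_eq_zero z hz151 hz1)
  · intro g w hw
    rw [← hw]
    exact (MulAut.conj g).orderOf_eq w
  · intro i hi
    rw [orderOf_pow, hz]
    have : Nat.gcd 151 (i + 1) = 1 :=
      (Nat.Prime.coprime_iff_not_dvd fact151.out).2 (fun h => by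
        have := Nat.le_of_dvd (by omega) h
        omega)
    rw [this, Nat.div_one]

/-- ORTHOGONALITY: a matrix `x` over an `F_2`-space `J` with `tr (z x) = 0` for all `z` of order 151
of `GL_15(F_2)` is `0`. -/
theorem orth151 {J : Type} [AddCommGroup J] [Module (ZMod 2) J]
    (x : Matrix (Fin 15) (Fin 15) J)
    (h : ∀ z : GL (Fin 15) (ZMod 2), orderOf z = 151 →
      ∑ i, ∑ j, (z : Matrix (Fin 15) (Fin 15) (ZMod 2)) i j • x j i = 0) : x = 0 := by
  apply zero_of_trace span151 x
  intro A hA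
  induction hA using AddSubgroup.closure_induction with
  | mem A hA =>
    obtain ⟨w, hw, rfl⟩ := hA
    exact h w hw
  | zero => simp
  | add A B _ _ hA hB =>
    simp only [Matrix.add_apply, add_smul, Finset.sum_add_distrib, hA, hB, add_zero]
  | neg A _ hA => simp only [Matrix.neg_apply, neg_smul, Finset.sum_neg_distrib, hA, neg_zero]

end QG40
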