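import Pool.Agent.Helper40.QG.Field

/-!
AUT project (S00834), pure `GL_d` block, G4: `GL n A` for a commutative ring `A` with
`inc : ZMod 2 →+* A`, `eps : A →+* ZMod 2`, square-zero kernel.

* `hom_eq_det` : for `n ≥ 3` every hom from `GL n A` to a commutative group factors through `det`.
* `mem_commutator_iff` : `g ∈ commutator (GL n A) ↔ det g = 1`.
* `sumA` : `1 + z + ... + z^150 = 0` for `z` of order 151 in `GL 15 A`.
-/

set_option autoImplicit false

namespace QG40

open Matrix

section A

variable {n : Type} [DecidableEq n] [Fintype n] {A : Type} [CommRing A]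

/-- `diag(1, .., u, .., 1)` with `u` at place `i` -/
def dd (i : n) : Aˣ →* GL n A where
  toFun u := ⟨diagonal (Function.update 1 i (u : A)), diagonal (Function.update 1 i ((u⁻¹ : Aˣ) : A)),
    by
      rw [diagonal_mul_diagonal, ← diagonal_one]
      congr 1
      funext j
      by_cases h : j = i
      · subst h; simp
      · simp [h],
    by
      rw [diagonal_mul_diagonal, ← diagonal_one]
      congr 1
      funext j
      by_cases h : j = i
      · subst h; simp
      · simp [h]⟩
  map_one' := by
    ext1
    simp only [Units.val_one, Function.update_eq_self_iff, Pi.one_apply]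
    rw [show Function.update (1 : n → A) i 1 = 1 from by
      funext j; by_cases h : j = i
      · subst h; simp
      · simp [h]]
    exact diagonal_one
  map_mul' u v := by
    apply Units.ext
    change diagonal (Function.update 1 i ((u * v : Aˣ) : A)) =
      diagonal (Function.update 1 i (u : A)) * diagonal (Function.update 1 i (v : A))
    rw [diagonal_mul_diagonal]
    congr 1
    funext j
    by_cases h : j = i
    · subst h; simp
    · simp [h]

theorem dd_val (i : n) (u : Aˣ) :
    (dd i u : Matrix n n A) = diagonal (Function.update 1 i (u : A)) := rfl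

theorem det_dd (i : n) (u : Aˣ) : GeneralLinearGroup.det (dd i u) = u := by
  ext1
  rw [GeneralLinearGroup.val_det_apply, dd_val, det_diagonal,
    Finset.prod_update_of_mem (Finset.mem_univ i)]
  simp

theorem det_el {i j : n} (h : i ≠ j) (c : A) : GeneralLinearGroup.det (el i j c) = 1 := by
  ext1
  rw [GeneralLinearGroup.val_det_apply, el_val h, det_transvection_of_ne _ _ h]
  rfl

/-- permutation matrix as a unit -/
def perm (σ : Equiv.Perm n) : GL n A where
  val := (1 : Matrix n n A).submatrix σ id
  inv := (1 : Matrix n n A).submatrix σ.symm id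
  val_inv := by
    ext a b
    rw [Matrix.mul_apply, Finset.sum_eq_single (σ a)]
    · simp [Matrix.one_apply]
    · intro c _ hc
      simp [Matrix.one_apply, Ne.symm hc]
    · simp
  inv_val := by
    ext a b
    rw [Matrix.mul_apply, Finset.sum_eq_single (σ.symm a)]
    · simp [Matrix.one_apply]
    · intro c _ hc
      simp [Matrix.one_apply, Ne.symm hc]
    · simp

theorem perm_dd (i j : n) (u : Aˣ) :
    perm (Equiv.swap i j) * dd i u = dd j u * perm (Equiv.swap i j) := by
  ext a b
  simp only [Units.val_mul, perm, dd_val]
  rw [mul_diagonal, diagonal_mul]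
  simp only [submatrix_apply, id_eq, Matrix.one_apply]
  by_cases h : Equiv.swap i j a = b
  · subst h
    simp only [if_true, one_mul, mul_one]
    by_cases ha : a = j
    · subst ha; simp
    · by_cases hb : a = i
      · subst hb
        by_cases hij : a = j
        · exact absurd hij ha
        · simp [Function.update_of_ne ha, Function.update_of_ne (Ne.symm hij)]
      · rw [Equiv.swap_apply_of_ne_of_ne hb ha]
        simp [ha, hb]
  · simp [h]

theorem hom_dd {B : Type} [CommGroup B] (f : GL n A →* B) (i j : n) (u : Aˣ) :
    f (dd i u) = f (dd j u) := by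
  have h := congrArg f (perm_dd i j u)
  rw [map_mul, map_mul, mul_comm] at h
  exact mul_right_cancel h

end A

section sq

variable {n : Type} [DecidableEq n] [Fintype n] {A : Type} [CommRing A]
  (inc : ZMod 2 →+* A) (eps : A →+* ZMod 2) (hsq : ∀ a b : A, eps a = 0 → eps b = 0 → a * b = 0)

theorem eps_inc (x : ZMod 2) : eps (inc x) = x := by
  have : (eps.comp inc) = RingHom.id (ZMod 2) := Subsingleton.elim _ _
  exact congrArg (fun f => f x) (congrArg DFunLike.coe this)

omit [DecidableEq n] in
include hsq in
theorem sq_mat (x y : Matrix n n A) (hx : ∀ i j, eps (x i j) = 0) (hy : ∀ i j, eps (y i j) = 0) :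
    x * y = 0 := by
  ext i j
  rw [Matrix.mul_apply, Matrix.zero_apply]
  exact Finset.sum_eq_zero fun k _ => hsq _ _ (hx i k) (hy k j)

/-- `1 + y` for `y` a matrix over `J = ker eps`, as a group homomorphism -/
def unip : Multiplicative (Matrix n n (RingHom.ker eps)) →* GL n A where
  toFun y := ⟨1 + (Multiplicative.toAdd y).map (fun a => (a : A)),
    1 - (Multiplicative.toAdd y).map (fun a => (a : A)),
    by
      have := sq_mat eps hsq ((Multiplicative.toAdd y).map (fun a => (a : A)))
        ((Multiplicative.toAdd y).map (fun a => (a : A)))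
        (fun i j => (Multiplicative.toAdd y i j).2) (fun i j => (Multiplicative.toAdd y i j).2)
      rw [add_mul, mul_sub, mul_sub, this]; simp,
    by
      have := sq_mat eps hsq ((Multiplicative.toAdd y).map (fun a => (a : A)))
        ((Multiplicative.toAdd y).map (fun a => (a : A)))
        (fun i j => (Multiplicative.toAdd y i j).2) (fun i j => (Multiplicative.toAdd y i j).2)
      rw [sub_mul, mul_add, mul_add, this]; simp⟩
  map_one' := by
    ext i j
    simp
  map_mul' y z := by
    ext1
    have := sq_mat eps hsq ((Multiplicative.toAdd y).map (fun a => (a : A)))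
        ((Multiplicative.toAdd z).map (fun a => (a : A)))
        (fun i j => (Multiplicative.toAdd y i j).2) (fun i j => (Multiplicative.toAdd z i j).2)
    rw [Units.val_mul]
    change 1 + (Multiplicative.toAdd y + Multiplicative.toAdd z).map (fun a => (a : A)) =
      (1 + (Multiplicative.toAdd y).map (fun a => (a : A))) *
      (1 + (Multiplicative.toAdd z).map (fun a => (a : A)))
    rw [add_mul, mul_add, mul_add, this]
    ext i j
    simp [add_assoc, add_comm, add_left_comm]

theorem unip_val (y : Matrix n n (RingHom.ker eps)) :
    (unip eps hsq (Multiplicative.ofAdd y) : Matrix n n A) = 1 + y.map (fun a => (a : A)) := rfl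

theorem unip_single_ne {i j : n} (h : i ≠ j) (a : RingHom.ker eps) :
    unip eps hsq (Multiplicative.ofAdd (single i j a)) = el i j (a : A) := by
  ext1
  rw [unip_val, el_val h, transvection]
  congr 1
  ext p q
  simp only [map_apply, single_apply]
  split_ifs <;> rfl

include hsq in
/-- `1 + a` as a unit -/
def uu (a : RingHom.ker eps) : Aˣ :=
  ⟨1 + a, 1 - a, by have := hsq a a a.2 a.2; linear_combination -this,
    by have := hsq a a a.2 a.2; linear_combination -this⟩

theorem unip_single_eq (i : n) (a : RingHom.ker eps) :
    unip eps hsq (Multiplicative.ofAdd (single i i a)) = dd i (uu eps hsq a) := by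
  ext p q
  rw [unip_val, dd_val]
  by_cases hpq : p = q
  · subst hpq
    by_cases hi : p = i
    · subst hi; simp [uu]
    · simp [hi, single_apply, Ne.symm hi]
  · rw [diagonal_apply_ne _ hpq, Matrix.add_apply, Matrix.one_apply_ne hpq, map_apply, single_apply,
      if_neg (by rintro ⟨rfl, rfl⟩; exact hpq rfl)]
    simp

/-- homs to commutative groups on `1 + M_n(J)` -/
theorem hom_unip {B : Type} [CommGroup B] (h3 : 3 ≤ Fintype.card n) (f : GL n A →* B)
    (y : Matrix n n (RingHom.ker eps)) :
    f (unip eps hsq (Multiplicative.ofAdd y)) = ∏ i, f (dd i (uu eps hsq (y i i))) := by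
  have hel : ∀ (i j : n) (c : A), f (el i j c) = 1 := by
    intro i j c
    have h := el_mem_commutator h3 i j c
    have h2 : commutator (GL n A) ≤ f.ker := Abelianization.commutator_subset_ker f
    exact h2 h
  have key : ∀ y : Matrix n n (RingHom.ker eps), f (unip eps hsq (Multiplicative.ofAdd y)) =
      ∏ i, ∏ j, f (unip eps hsq (Multiplicative.ofAdd (single i j (y i j)))) := by
    intro y
    change (f.comp (unip eps hsq)) (Multiplicative.ofAdd y) =
      ∏ i, ∏ j, (f.comp (unip eps hsq)) (Multiplicative.ofAdd (single i j (y i j)))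
    conv_lhs => rw [Matrix.matrix_eq_sum_single y]
    rw [ofAdd_sum, map_prod]
    apply Finset.prod_congr rfl
    intro i _
    rw [ofAdd_sum, map_prod]
  rw [key]
  apply Finset.prod_congr rfl
  intro i _
  rw [Finset.prod_eq_single i]
  · rw [unip_single_eq]
  · intro j _ hj
    rw [unip_single_ne eps hsq (Ne.symm hj)]
    exact hel _ _ _
  · simp

/-- reduction mod `J` -/
def red : GL n A →* GL n (ZMod 2) := GeneralLinearGroup.map eps

/-- the constants -/
def cst : GL n (ZMod 2) →* GL n A := GeneralLinearGroup.map inc

theorem red_cst (g : GL n (ZMod 2)) : red eps (cst inc g) = g := by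
  ext i j
  simp [red, cst, eps_inc]

/-- `g = cst (red g) * (1 + y)` -/
theorem exists_decomp (g : GL n A) : ∃ y : Matrix n n (RingHom.ker eps),
    g = cst inc (red eps g) * unip eps hsq (Multiplicative.ofAdd y) := by
  let h : GL n A := (cst inc (red eps g))⁻¹ * g
  have hred : red eps h = 1 := by
    simp only [h, map_mul, map_inv, red_cst]
    simp
  have hval : ∀ i j, eps ((h : Matrix n n A) i j) = (1 : Matrix n n (ZMod 2)) i j := by
    intro i j
    have := congrArg (fun u : GL n (ZMod 2) => (u : Matrix n n (ZMod 2)) i j) hred
    simpa [red] using this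
  refine ⟨Matrix.of fun i j => ⟨(h : Matrix n n A) i j - (1 : Matrix n n A) i j, ?_⟩, ?_⟩
  · rw [RingHom.mem_ker, map_sub, hval]
    by_cases hij : i = j
    · subst hij; simp
    · simp [Matrix.one_apply_ne hij]
  · have : unip eps hsq (Multiplicative.ofAdd (Matrix.of fun i j =>
        (⟨(h : Matrix n n A) i j - (1 : Matrix n n A) i j, by
          rw [RingHom.mem_ker, map_sub, hval]
          by_cases hij : i = j
          · subst hij; simp
          · simp [Matrix.one_apply_ne hij]⟩ : RingHom.ker eps))) = h := by
      ext i j
      rw [unip_val]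
      simp
    rw [this]
    simp [h]

include inc eps hsq in
/-- every hom from `GL n A` (`n ≥ 3`) to a commutative group factors through `det` -/
theorem hom_eq_det {B : Type} [CommGroup B] (h3 : 3 ≤ Fintype.card n) (i0 : n) (f : GL n A →* B)
    (g : GL n A) : f g = f (dd i0 (GeneralLinearGroup.det g)) := by
  obtain ⟨y, hy⟩ := exists_decomp inc eps hsq g
  have hperf := GL_perfect h3
  have hc : ∀ {B : Type} [CommGroup B] (f : GL n A →* B) (h : GL n (ZMod 2)), f (cst inc h) = 1 := by
    intro B _ f h
    have h1 : h ∈ commutator (GL n (ZMod 2)) := by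
      rw [(Group.isPerfect_def.1 hperf)]; trivial
    exact (Abelianization.commutator_subset_ker (f.comp (cst inc))) h1
  have hf : ∀ {B : Type} [CommGroup B] (f : GL n A →* B), f g =
      f (dd i0 (∏ i, uu eps hsq (y i i))) := by
    intro B _ f
    change _ = (f.comp (dd i0)) _
    rw [map_prod]
    conv_lhs => rw [hy, map_mul, hc f, one_mul, hom_unip eps hsq h3]
    exact Finset.prod_congr rfl fun i _ => hom_dd f i i0 _
  have hdet : GeneralLinearGroup.det g = ∏ i, uu eps hsq (y i i) := by
    rw [hf GeneralLinearGroup.det, det_dd]
  rw [hdet]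
  exact hf f

include inc eps hsq in
theorem mem_commutator_iff (h3 : 3 ≤ Fintype.card n) (i0 : n) (g : GL n A) :
    g ∈ commutator (GL n A) ↔ GeneralLinearGroup.det g = 1 := by
  constructor
  · intro h
    exact (Abelianization.commutator_subset_ker (GeneralLinearGroup.det (n := n) (R := A))) h
  · intro h
    have h1 := hom_eq_det inc eps hsq h3 i0 (Abelianization.of (G := GL n A)) g
    rw [h, map_one, map_one] at h1
    exact (QuotientGroup.eq_one_iff g).1 h1

end sq

end QG40
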