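import Pool.Agent.Helper40.QG.Trans

/-!
AUT project (S00834), pure `GL_d` block: additive subgroups of `M_n(F_2)` invariant under conjugation
by the elementary matrices.
-/

set_option autoImplicit false

namespace QG40

open Matrix

variable {n : Type} [DecidableEq n] [Fintype n]

theorem z2_neg (x : ZMod 2) : -x = x := by revert x; decide

omit [DecidableEq n] [Fintype n] in
theorem m2_add_self (A : Matrix n n (ZMod 2)) : A + A = 0 := by
  ext i j; simp only [Matrix.add_apply, Matrix.zero_apply]; generalize A i j = x; revert x; decide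

omit [DecidableEq n] [Fintype n] in
theorem m2_sub (A B : Matrix n n (ZMod 2)) : A - B = A + B := by
  ext i j; simp only [Matrix.add_apply, Matrix.sub_apply]
  generalize A i j = x; generalize B i j = y; revert x y; decide

/-- conjugation-invariance under all elementary matrices -/
def ConjInv (Z : AddSubgroup (Matrix n n (ZMod 2))) : Prop :=
  ∀ i j : n, i ≠ j → ∀ A ∈ Z,
    (el i j (1 : ZMod 2) : Matrix n n (ZMod 2)) * A * ((el i j (1 : ZMod 2))⁻¹ : GL n (ZMod 2)) ∈ Z

theorem el_inv_val {i j : n} (h : i ≠ j) :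
    (((el i j (1 : ZMod 2))⁻¹ : GL n (ZMod 2)) : Matrix n n (ZMod 2)) = 1 + single i j 1 := by
  rw [← el_neg, el_val h, z2_neg]; rfl

theorem ConjInv.T {Z : AddSubgroup (Matrix n n (ZMod 2))} (hZ : ConjInv Z) {i j : n} (h : i ≠ j)
    {A : Matrix n n (ZMod 2)} (hA : A ∈ Z) :
    single i j 1 * A + A * single i j 1 + single i j 1 * A * single i j 1 ∈ Z := by
  have h1 := Z.sub_mem (hZ i j h A hA) hA
  rw [el_inv_val h, el_val h, transvection] at h1
  convert h1 using 1
  noncomm_ring

theorem ConjInv.T2 {Z : AddSubgroup (Matrix n n (ZMod 2))} (hZ : ConjInv Z) {i j l : n}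
    (hij : i ≠ j) (hil : i ≠ l) {A : Matrix n n (ZMod 2)} (hA : A ∈ Z) :
    single i l (A j i) + single i j (A l i) ∈ Z := by
  have hT := hZ.T hij hA
  have hT' := hZ.T hil hA
  have hTT := hZ.T hil hT
  have e1 : single i l 1 * single i j (1 : ZMod 2) = 0 := single_mul_single_of_ne _ _ _ _ hil.symm _
  have e2 : single i j 1 * single i l (1 : ZMod 2) = 0 := single_mul_single_of_ne _ _ _ _ hij.symm _
  have e3 : single i j 1 * A * single i l 1 = single i l (A j i) := by
    rw [single_mul_mul_single]; simp
  have e4 : single i l 1 * A * single i j 1 = single i j (A l i) := by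
    rw [single_mul_mul_single]; simp
  rw [← e3, ← e4]
  have key : single i l 1 * (single i j 1 * A + A * single i j 1 + single i j 1 * A * single i j 1) +
      (single i j 1 * A + A * single i j 1 + single i j 1 * A * single i j 1) * single i l 1 +
      single i l 1 * (single i j 1 * A + A * single i j 1 + single i j 1 * A * single i j 1) *
        single i l 1
      = single i l 1 * A * single i j 1 + single i j 1 * A * single i l 1 := by
    have a1 : single i l 1 * (single i j 1 * A) = 0 := by rw [← mul_assoc, e1, zero_mul]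
    have a2 : single i l 1 * (single i j 1 * A * single i j 1) = 0 := by
      rw [← mul_assoc, ← mul_assoc, e1, zero_mul, zero_mul]
    have a3 : A * single i j 1 * single i l 1 = 0 := by rw [mul_assoc, e2, mul_zero]
    have a4 : single i j 1 * A * single i j 1 * single i l 1 = 0 := by rw [mul_assoc, e2, mul_zero]
    rw [mul_add, mul_add, a1, a2, add_mul, add_mul, a3, a4]
    have a5 : single i l 1 * (A * single i j 1) * single i l 1 = 0 := by
      rw [mul_assoc, mul_assoc, e2, mul_zero, mul_zero]
    rw [zero_add, add_zero, a5, add_zero, add_zero, add_zero, ← mul_assoc]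
  rw [key] at hTT
  rw [add_comm]
  exact hTT

/-- a conjugation-invariant additive subgroup containing one off-diagonal unit contains all -/
theorem ConjInv.all_of_one {Z : AddSubgroup (Matrix n n (ZMod 2))} (hZ : ConjInv Z)
    {p q : n} (hpq : p ≠ q) (h : single p q (1 : ZMod 2) ∈ Z) (h3 : 3 ≤ Fintype.card n) :
    ∀ i j : n, i ≠ j → single i j (1 : ZMod 2) ∈ Z := by
  -- change of the first index
  have row : ∀ {p q : n}, p ≠ q → single p q (1 : ZMod 2) ∈ Z → ∀ i, i ≠ q →
      single i q (1 : ZMod 2) ∈ Z := by
    intro p q hpq h i hiq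
    by_cases hip : i = p
    · rw [hip]; exact h
    · have := hZ.T hip h
      have b1 : single i p 1 * single p q (1 : ZMod 2) = single i q 1 := by
        rw [single_mul_single_same]; simp
      have b2 : single p q (1 : ZMod 2) * single i p 1 = 0 :=
        single_mul_single_of_ne _ _ _ _ hiq.symm _
      rw [b1, b2, single_mul_single_of_ne _ _ _ _ hiq.symm] at this
      simpa using this
  have col : ∀ {p q : n}, p ≠ q → single p q (1 : ZMod 2) ∈ Z → ∀ j, p ≠ j →
      single p j (1 : ZMod 2) ∈ Z := by
    intro p q hpq h j hpj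
    by_cases hjq : q = j
    · rw [← hjq]; exact h
    · have := hZ.T hjq h
      have b1 : single p q (1 : ZMod 2) * single q j 1 = single p j 1 := by
        rw [single_mul_single_same]; simp
      have b2 : single q j (1 : ZMod 2) * single p q 1 = 0 :=
        single_mul_single_of_ne _ _ _ _ hpj.symm _
      rw [b1, b2, zero_mul] at this
      simpa using this
  intro i j hij
  by_cases hiq : i = q
  · subst hiq
    -- i = q ; first move to (p, k), k ≠ p, i, then (i, k), then (i, j)
    obtain ⟨k, hik, hkp⟩ := exists_third h3 i p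
    have h1 := col hpq h k hkp.symm
    have h2 := row hkp.symm h1 i hik
    exact col hik h2 j hij
  · have h1 := row hpq h i hiq
    exact col hiq h1 j hij

theorem ConjInv.diag {Z : AddSubgroup (Matrix n n (ZMod 2))} (hZ : ConjInv Z)
    (hall : ∀ i j : n, i ≠ j → single i j (1 : ZMod 2) ∈ Z) (p q : n) (hpq : p ≠ q) :
    single p p (1 : ZMod 2) + single q q 1 ∈ Z := by
  have := hZ.T hpq.symm (hall p q hpq)
  have b1 : single q p (1 : ZMod 2) * single p q 1 = single q q 1 := by
    rw [single_mul_single_same]; simp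
  have b2 : single p q (1 : ZMod 2) * single q p 1 = single p p 1 := by
    rw [single_mul_single_same]; simp
  rw [b1, b2] at this
  have b3 : single q q (1 : ZMod 2) * single q p 1 = single q p 1 := by
    rw [single_mul_single_same]; simp
  rw [b3] at this
  have := Z.sub_mem this (hall q p hpq.symm)
  rw [add_sub_cancel_right, add_comm] at this
  exact this

/-- a non-scalar element produces an off-diagonal unit -/
theorem ConjInv.exists_one {Z : AddSubgroup (Matrix n n (ZMod 2))} (hZ : ConjInv Z)
    (h3 : 3 ≤ Fintype.card n) {A : Matrix n n (ZMod 2)} (hA : A ∈ Z)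
    (hns : (∃ i j, i ≠ j ∧ A j i ≠ 0) ∨ ∃ i j, A i i ≠ A j j) :
    ∃ p q : n, p ≠ q ∧ single p q (1 : ZMod 2) ∈ Z := by
  by_cases hoff : ∃ i j, i ≠ j ∧ A j i ≠ 0
  · obtain ⟨i, j, hij, hA1⟩ := hoff
    have hA1 := isUnit_zmod2 hA1
    obtain ⟨l, hil, hlj⟩ := exists_third h3 i j
    have h1 := hZ.T2 hij hil hA
    rw [hA1] at h1
    by_cases hl : A l i = 0
    · rw [hl, single_zero, add_zero] at h1
      exact ⟨i, l, hil, h1⟩
    · rw [isUnit_zmod2 hl] at h1
      -- B = E_il + E_ij ;  apply T2 with (j; i, l)
      have h2 := hZ.T2 (i := j) (j := i) (l := l) hij.symm hlj.symm h1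
      have c1 : (single i l (1 : ZMod 2) + single i j 1 : Matrix n n (ZMod 2)) i j = 1 := by
        simp [single_apply, hlj]
      have c2 : (single i l (1 : ZMod 2) + single i j 1 : Matrix n n (ZMod 2)) l j = 0 := by
        simp [single_apply, hil]
      rw [c1, c2, single_zero, add_zero] at h2
      exact ⟨j, l, hlj.symm, h2⟩
  · push Not at hoff
    obtain ⟨i, j, hij⟩ : ∃ i j, A i i ≠ A j j := by
      rcases hns with ⟨i, j, h, h'⟩ | h
      · exact absurd (hoff i j h) h'
      · exact h
    have hne : i ≠ j := fun h => hij (by rw [h])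
    have h1 := hZ.T hne hA
    refine ⟨i, j, hne, ?_⟩
    convert h1 using 1
    have hAd : A = diagonal (fun k => A k k) := by
      ext a b
      by_cases hab : a = b
      · subst hab; simp
      · rw [diagonal_apply_ne _ hab]; exact hoff b a (Ne.symm hab)
    rw [hAd, single_mul_mul_single]
    have c3 : diagonal (fun k => A k k) j i = 0 := diagonal_apply_ne _ hne.symm
    rw [c3]
    have c4 : single i j 1 * diagonal (fun k => A k k) = single i j (A j j) := by
      ext a b
      rw [mul_diagonal]
      by_cases h1 : i = a <;> by_cases h2 : j = b <;> simp [single_apply, h1, h2]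
    have c5 : diagonal (fun k => A k k) * single i j 1 = single i j (A i i) := by
      ext a b
      rw [diagonal_mul]
      by_cases h1 : i = a <;> by_cases h2 : j = b <;> simp [single_apply, h1, h2]
    rw [c4, c5]
    simp only [mul_zero, zero_mul, single_zero, add_zero]
    rw [← single_add]
    congr 1
    revert hij
    generalize A i i = x
    generalize A j j = y
    revert x y
    decide

/-- Odd size: a conjugation-invariant additive subgroup containing `1` and a non-scalar is everything. -/
theorem ConjInv.eq_top {Z : AddSubgroup (Matrix n n (ZMod 2))} (hZ : ConjInv Z)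
    (h3 : 3 ≤ Fintype.card n) (hodd : Odd (Fintype.card n)) (h1 : (1 : Matrix n n (ZMod 2)) ∈ Z)
    {A : Matrix n n (ZMod 2)} (hA : A ∈ Z)
    (hns : (∃ i j, i ≠ j ∧ A j i ≠ 0) ∨ ∃ i j, A i i ≠ A j j) : Z = ⊤ := by
  obtain ⟨p, q, hpq, hpq1⟩ := hZ.exists_one h3 hA hns
  have hall := hZ.all_of_one hpq hpq1 h3
  have hdiag := hZ.diag hall
  have hii : ∀ i : n, single i i (1 : ZMod 2) ∈ Z := by
    intro i
    have hs : ∑ k ∈ Finset.univ.erase i, (single k k (1 : ZMod 2) + single i i 1) ∈ Z := by
      apply Z.sum_mem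
      intro k hk
      exact hdiag k i (Finset.ne_of_mem_erase hk)
    have h2 := Z.sub_mem h1 hs
    convert h2 using 1
    rw [Finset.sum_add_distrib, Finset.sum_const, Finset.card_erase_of_mem (Finset.mem_univ i),
      Finset.card_univ]
    have he : (Fintype.card n - 1) • single i i (1 : ZMod 2) = 0 := by
      obtain ⟨m, hm⟩ := hodd
      rw [hm]
      simp only [Nat.add_sub_cancel]
      rw [mul_comm, mul_nsmul, two_nsmul, ← two_nsmul, ← mul_nsmul]
      rw [mul_comm, mul_nsmul, two_nsmul, m2_add_self, ]
      simp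
    rw [he, add_zero]
    have hone : (1 : Matrix n n (ZMod 2)) = ∑ k, single k k (1 : ZMod 2) := by
      ext a b
      rw [Matrix.sum_apply]
      by_cases hab : a = b
      · subst hab
        rw [Matrix.one_apply_eq, Finset.sum_eq_single a]
        · simp
        · intro b _ hb; simp [single_apply, hb]
        · simp
      · rw [Matrix.one_apply_ne hab, Finset.sum_eq_zero]
        intro k _
        rw [single_apply]
        split_ifs with h
        · exact absurd (h.1.symm.trans h.2) hab
        · rfl
    rw [hone, ← Finset.add_sum_erase _ _ (Finset.mem_univ i), add_sub_cancel_right]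
  rw [eq_top_iff]
  intro M _
  rw [Matrix.matrix_eq_sum_single M]
  apply Z.sum_mem
  intro i _
  apply Z.sum_mem
  intro j _
  by_cases hM : M i j = 0
  · rw [hM, single_zero]; exact Z.zero_mem
  · rw [isUnit_zmod2 hM]
    by_cases hij : i = j
    · rw [hij]; exact hii j
    · exact hall i j hij

/-- Span lemma, abstract form: odd size, `z` a unit matrix with `1 + z + ... + z^(p-1) = 0`, `z ≠ 1`. -/
theorem closure_eq_top_of_pow (h3 : 3 ≤ Fintype.card n) (hodd : Odd (Fintype.card n)) {p : ℕ}
    (P : GL n (ZMod 2) → Prop) (hconj : ∀ g z, P z → P (g * z * g⁻¹)) {z : GL n (ZMod 2)}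
    (hz1 : z ≠ 1) (hzP : ∀ i : ℕ, i + 1 < p → P (z ^ (i + 1)))
    (hp : 2 ≤ p) (hsum : ∑ i ∈ Finset.range p, (z : Matrix n n (ZMod 2)) ^ i = 0) :
    AddSubgroup.closure {A : Matrix n n (ZMod 2) | ∃ w : GL n (ZMod 2), P w ∧ A = w} = ⊤ := by
  set Z := AddSubgroup.closure {A : Matrix n n (ZMod 2) | ∃ w : GL n (ZMod 2), P w ∧ A = w} with hZ
  have hinv : ConjInv Z := by
    intro i j _ A hA
    rw [hZ] at hA
    induction hA using AddSubgroup.closure_induction with
    | mem A hA =>
      obtain ⟨w, hw, rfl⟩ := hA
      exact AddSubgroup.subset_closure ⟨el i j 1 * w * (el i j 1)⁻¹, hconj _ _ hw, by simp⟩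
    | zero => simp [Z.zero_mem]
    | add A B _ _ hA hB => rw [mul_add, add_mul]; exact Z.add_mem hA hB
    | neg A _ hA => rw [mul_neg, neg_mul]; exact Z.neg_mem hA
  have hzZ : ∀ i : ℕ, i + 1 < p → (z : Matrix n n (ZMod 2)) ^ (i + 1) ∈ Z := fun i hi =>
    AddSubgroup.subset_closure ⟨z ^ (i + 1), hzP i hi, by simp⟩
  have hone : (1 : Matrix n n (ZMod 2)) ∈ Z := by
    obtain ⟨q, rfl⟩ : ∃ q, p = q + 1 := ⟨p - 1, by omega⟩
    rw [Finset.sum_range_succ'] at hsum
    simp only [pow_zero] at hsum
    have : (1 : Matrix n n (ZMod 2)) =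
        - ∑ i ∈ Finset.range q, (z : Matrix n n (ZMod 2)) ^ (i + 1) :=
      eq_neg_of_add_eq_zero_right hsum
    rw [this]
    apply Z.neg_mem
    apply Z.sum_mem
    intro i hi
    exact hzZ i (by rw [Finset.mem_range] at hi; omega)
  have hz : (z : Matrix n n (ZMod 2)) ∈ Z := by
    have := hzZ 0 (by omega)
    simpa using this
  apply hinv.eq_top h3 hodd hone hz
  by_contra hcon
  push Not at hcon
  obtain ⟨hoff, hdiag⟩ := hcon
  haveI : Nonempty n := Fintype.card_pos_iff.1 (by omega)
  obtain ⟨a⟩ := this
  have hzd : (z : Matrix n n (ZMod 2)) = (z : Matrix n n (ZMod 2)) a a • 1 := by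
    ext i j
    by_cases hij : i = j
    · subst hij; simp [hdiag i a]
    · rw [Matrix.smul_apply, Matrix.one_apply_ne hij, smul_zero]
      exact hoff j i (Ne.symm hij)
  have hza : (z : Matrix n n (ZMod 2)) a a ≠ 0 := by
    intro h0
    rw [h0, zero_smul] at hzd
    have h1 := z.mul_inv
    rw [hzd, zero_mul] at h1
    have h2 := congrFun (congrFun h1 a) a
    simp at h2
  apply hz1
  ext1
  rw [hzd, isUnit_zmod2 hza, one_smul]
  rfl

/-- trace duality: a matrix with entries in an `F_2`-space orthogonal to a spanning set is zero -/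
theorem zero_of_trace {J : Type} [AddCommGroup J] [Module (ZMod 2) J]
    {Z : AddSubgroup (Matrix n n (ZMod 2))} (hZ : Z = ⊤) (x : Matrix n n J)
    (h : ∀ A ∈ Z, ∑ i, ∑ j, A i j • x j i = 0) : x = 0 := by
  ext i j
  have h1 := h (single j i 1) (by rw [hZ]; trivial)
  rw [Finset.sum_eq_single j] at h1
  · rw [Finset.sum_eq_single i] at h1
    · simpa using h1
    · intro b _ hb; simp [single_apply, Ne.symm hb]
    · simp
  · intro b _ hb
    apply Finset.sum_eq_zero
    intro c _
    simp [single_apply, Ne.symm hb]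
  · simp

end QG40
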