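import Mathlib

/-!
AUT project (S00834), pure `GL_d` block: elementary matrices as units, generation of `GL n (ZMod 2)`,
perfectness for `n ≥ 3`.
-/

set_option autoImplicit false

namespace QG40

open Matrix

section trans

variable {n : Type} [DecidableEq n] [Fintype n] {R : Type} [CommRing R]

/-- elementary matrix `1 + c e_{ij}` as a unit; for `i = j` it is `1`. -/
def el (i j : n) (c : R) : GL n R :=
  if h : i ≠ j then
    ⟨transvection i j c, transvection i j (-c),
      by rw [transvection_mul_transvection_same _ _ h]; simp,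
      by rw [transvection_mul_transvection_same _ _ h]; simp⟩
  else 1

theorem el_val {i j : n} (h : i ≠ j) (c : R) : (el i j c : Matrix n n R) = transvection i j c := by
  simp [el, h]

theorem el_self (i : n) (c : R) : el i i c = 1 := by simp [el]

theorem el_add {i j : n} (c c' : R) : el i j (c + c') = el i j c * el i j c' := by
  by_cases h : i = j
  · subst h; simp [el_self]
  · ext1
    rw [Units.val_mul, el_val h, el_val h, el_val h, transvection_mul_transvection_same _ _ h]

theorem el_zero (i j : n) : el i j (0 : R) = 1 := by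
  by_cases h : i = j
  · subst h; exact el_self _ _
  · ext1
    rw [el_val h]; simp

theorem el_neg (i j : n) (c : R) : el i j (-c) = (el i j c)⁻¹ := by
  rw [eq_inv_iff_mul_eq_one, ← el_add, neg_add_cancel, el_zero]

/-- the commutator relation `[x_{ik}(a), x_{kj}(b)] = x_{ij}(ab)` -/
theorem el_comm {i j k : n} (hij : i ≠ j) (hik : i ≠ k) (hkj : k ≠ j) (a b : R) :
    el i k a * el k j b * (el i k a)⁻¹ * (el k j b)⁻¹ = el i j (a * b) := by
  rw [← el_neg, ← el_neg]
  ext1
  simp only [Units.val_mul, el_val hij, el_val hik, el_val hkj, transvection]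
  have h1 : single i k a * single k j b = single i j (a * b) := by
    rw [single_mul_single_same]
  have h2 : single k j b * single i k a = 0 := single_mul_single_of_ne _ _ _ _ (Ne.symm hij) _
  have h3 : single i k a * single i k a = 0 := single_mul_single_of_ne _ _ _ _ (Ne.symm hik) _
  have h4 : single k j b * single k j b = 0 := single_mul_single_of_ne _ _ _ _ (Ne.symm hkj) _
  have h5 : single i j (a * b) * single i k a = 0 :=
    single_mul_single_of_ne _ _ _ _ (Ne.symm hij) _
  have h6 : single i j (a * b) * single k j b = 0 :=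
    single_mul_single_of_ne _ _ _ _ (Ne.symm hkj) _
  have n1 : ∀ (p q : n) (c : R), single p q (-c) = - single p q c := fun p q c => by
    rw [← single_neg]
  rw [n1, n1]
  simp only [mul_add, add_mul, mul_one, one_mul, mul_neg, neg_mul, h1, h2, h3, h4, h5, h6,
    neg_zero, add_zero, zero_add, mul_zero, zero_mul, neg_neg]
  abel

end trans

section gen

variable {n : Type} [DecidableEq n] [Fintype n]

theorem isUnit_zmod2 {x : ZMod 2} (h : x ≠ 0) : x = 1 := by
  revert x; decide

/-- `GL n (ZMod 2)` is generated by the elementary matrices. -/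
theorem closure_el : Subgroup.closure {g : GL n (ZMod 2) | ∃ i j : n, i ≠ j ∧ g = el i j 1} = ⊤ := by
  rw [eq_top_iff]
  intro g _
  set H := Subgroup.closure {g : GL n (ZMod 2) | ∃ i j : n, i ≠ j ∧ g = el i j 1} with hH
  have hel : ∀ (i j : n) (c : ZMod 2), el i j c ∈ H := by
    intro i j c
    by_cases h : i = j
    · subst h; rw [el_self]; exact H.one_mem
    · by_cases hc : c = 0
      · rw [hc, el_zero]; exact H.one_mem
      · rw [isUnit_zmod2 hc]
        exact Subgroup.subset_closure ⟨i, j, h, rfl⟩
  have hL : ∀ L : List (TransvectionStruct n (ZMod 2)),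
      ∃ u ∈ H, (u : Matrix n n (ZMod 2)) = (L.map TransvectionStruct.toMatrix).prod := by
    intro L
    induction L with
    | nil => exact ⟨1, H.one_mem, by simp⟩
    | cons t L ih =>
      obtain ⟨u, hu, huv⟩ := ih
      refine ⟨el t.i t.j t.c * u, H.mul_mem (hel _ _ _) hu, ?_⟩
      rw [Units.val_mul, el_val t.hij, huv]
      simp [TransvectionStruct.toMatrix]
  obtain ⟨L, L', D, hD⟩ := Pivot.exists_list_transvec_mul_diagonal_mul_list_transvec
    (g : Matrix n n (ZMod 2))
  obtain ⟨u, hu, huv⟩ := hL L
  obtain ⟨u', hu', huv'⟩ := hL L'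
  have hdet : (g : Matrix n n (ZMod 2)).det ≠ 0 := by
    have := (Matrix.isUnit_iff_isUnit_det (g : Matrix n n (ZMod 2))).1 g.isUnit
    exact this.ne_zero
  have hD1 : D = fun _ => 1 := by
    funext i
    apply isUnit_zmod2
    intro hi
    apply hdet
    rw [hD, det_mul, det_mul, det_diagonal, Finset.prod_eq_zero (Finset.mem_univ i) hi]
    simp
  have : g = u * u' := by
    ext1
    rw [Units.val_mul, huv, huv', hD, hD1]
    simp
  rw [this]
  exact H.mul_mem hu hu'

/-- three indices -/
theorem exists_third (h3 : 3 ≤ Fintype.card n) (i j : n) : ∃ k, i ≠ k ∧ k ≠ j := by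
  have : ∃ k ∉ ({i, j} : Finset n), k ∈ (Finset.univ : Finset n) := by
    by_contra hcon
    push Not at hcon
    have hsub : (Finset.univ : Finset n) ⊆ {i, j} := by
      intro k hk
      by_contra hk'
      exact hcon k hk' hk
    have := Finset.card_le_card hsub
    have h2 : ({i, j} : Finset n).card ≤ 2 := Finset.card_le_two
    rw [Finset.card_univ] at this
    omega
  obtain ⟨k, hk, -⟩ := this
  simp only [Finset.mem_insert, Finset.mem_singleton, not_or] at hk
  exact ⟨k, fun h => hk.1 h.symm, hk.2⟩

theorem el_mem_commutator {R : Type} [CommRing R] (h3 : 3 ≤ Fintype.card n) (i j : n) (c : R) :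
    el i j c ∈ commutator (GL n R) := by
  by_cases h : i = j
  · subst h; rw [el_self]; exact Subgroup.one_mem _
  · obtain ⟨k, hik, hkj⟩ := exists_third h3 i j
    have := el_comm h hik hkj (1 : R) c
    rw [one_mul] at this
    rw [← this]
    have h' := Subgroup.commutator_mem_commutator (Subgroup.mem_top (el i k (1 : R)))
      (Subgroup.mem_top (el k j c))
    rw [commutatorElement_def] at h'
    exact h'

theorem GL_perfect (h3 : 3 ≤ Fintype.card n) : Group.IsPerfect (GL n (ZMod 2)) := by
  rw [Group.isPerfect_def, eq_top_iff, ← closure_el, Subgroup.closure_le]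
  rintro g ⟨i, j, h, rfl⟩
  exact el_mem_commutator h3 i j 1

end gen

end QG40
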